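import Pool.Agent.W528.HB.All

set_option autoImplicit false

namespace Pool.Agent.Results.MP_8ac872_ag.LineArrangementCovers

open Pool.Agent.W528.HA

/-- The traces of the powers of the endomorphism `F` (Frobenius over `κ`) of `W` are given by the
sums over the arrangement `l`, for the character with exponents `a`: for every finite extension
`L` of `κ`, of degree `n`, `(|L| - 1) tr(F ^ n | W)` is the sum over the affine cone. -/
def FrobeniusTraces (κ : Type) [Field κ] [Fintype κ] {ι : Type} [Fintype ι] (N M : ℕ)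
    (l : ι → Fin M → κ) (a : ι → ℕ) (z : κ) {E W : Type} [Field E] [AddCommGroup W]
    [Module E W] (μ : E) (F : Module.End E W) : Prop :=
  ∀ (L : Type) [Field L] [Fintype L] [Algebra κ L],
    ((Fintype.card L : E) - 1) * LinearMap.trace E W (F ^ Module.finrank κ L)
      = kummerSum L E N M (fun i k => algebraMap κ L (l i k)) a (algebraMap κ L z) μ

/-- **The Tate conjecture over finite fields for abelian covers of projective space branched along
hyperplanes, in every characteristic.**

Geometry (`d = 1`: surfaces). Let `Y → P^{2d}` be (a smooth projective model of) an abelian cover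
of exponent dividing `N` over a finite field of `q0` elements, `N` prime to the characteristic `p`,
branched along hyperplanes in general position. `H^{2d}(Y, E)` is the sum of a part spanned by
algebraic classes and of `V`, and `V` is the sum of the spaces `W χ` of the characters `χ` of the
cover with at least `2d + 2` branch hyperplanes. Let `κ` be an extension of degree `r` over which
the hyperplanes, the cover group and the `N`-th roots of unity are rational, `|κ| = p ^ f`.

Theorem: if every `χ` has a conjugate `χ ^ j` with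
`∑_i ∑_{s < f} ((j * a_χ i * p ^ s) mod N) < (d + 1) f N`, then no eigenvalue of Frobenius `F` on
`V` is `q0 ^ d` times a root of unity. -/
theorem result (N d : ℕ) (hN : 2 ≤ N) (p : ℕ) [Fact p.Prime]
    (κ : Type) [Field κ] [Fintype κ] [CharP κ p] (f : ℕ) (hf : Fintype.card κ = p ^ f)
    (ι : Type) [Fintype ι] (l : ι → Fin (2 * d + 1) → κ) (z : κ) (hz : IsPrimitiveRoot z N)
    (E : Type) [Field E] [CharZero E] [IsAlgClosed E] (μ : E) (hμ : IsPrimitiveRoot μ N)
    (V : Type) [AddCommGroup V] [Module E V] [FiniteDimensional E V] (F : Module.End E V)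
    (q0 r : ℕ) (hq0 : q0 ^ r = Fintype.card κ)
    (X : Type) [Fintype X] [DecidableEq X] (W : X → Submodule E V)
    (hW : DirectSum.IsInternal W) (hstab : ∀ χ, ∀ v ∈ W χ, (F ^ r) v ∈ W χ)
    (a : X → ι → ℕ) (ha : ∀ χ i, a χ i < N)
    (hj : ∀ χ, ∃ j : ℕ, j.Coprime N ∧
      ∑ i, ∑ s ∈ Finset.range f, (j * a χ i * p ^ s) % N < (d + 1) * f * N)
    (hF : ∀ χ, FrobeniusTraces κ N (2 * d + 1) l (a χ) z μ ((F ^ r).restrict (hstab χ)))
    (e : E) (he : Module.End.HasEigenvalue F e) (M : ℕ) (hM : 0 < M) :
    e ^ M ≠ ((q0 : E) ^ d) ^ M := by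
  classical
  intro heM
  obtain ⟨v, hv, hv0⟩ := he.exists_hasEigenvector
  rw [Module.End.mem_eigenspace_iff] at hv
  have hκ0 : (Fintype.card κ : E) ≠ 0 := by exact_mod_cast Fintype.card_ne_zero
  have hκd : (Fintype.card κ : E) ^ d ≠ 0 := pow_ne_zero _ hκ0
  -- the operator on `W χ`
  set A : ∀ χ, Module.End E (W χ) := fun χ =>
    ((Fintype.card κ : E) ^ d)⁻¹ • (F ^ r).restrict (hstab χ) with hA
  have hAt : ∀ χ, TraceFormula κ N d l (a χ) z μ (A χ) := by
    intro χ L _ _ _
    have h1 := hF χ L
    rw [← h1, hA]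
    simp only
    rw [smul_pow, map_smul, smul_eq_mul]
    have h2 : (Fintype.card L : E) = (Fintype.card κ : E) ^ Module.finrank κ L := by
      have : Fintype.card L = Fintype.card κ ^ Module.finrank κ L :=
        Module.card_eq_pow_finrank (K := κ) (V := L)
      rw [this]
      push_cast
      ring
    have h3 : (Fintype.card L : E) ^ d * (((Fintype.card κ : E) ^ d)⁻¹) ^ Module.finrank κ L
        = 1 := by
      rw [h2, inv_pow, ← pow_mul, ← pow_mul, mul_comm d]
      exact mul_inv_cancel₀ (pow_ne_zero _ hκ0)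
    calc ((Fintype.card L : E) - 1) * (Fintype.card L : E) ^ d
          * ((((Fintype.card κ : E) ^ d)⁻¹) ^ Module.finrank κ L
            * LinearMap.trace E (W χ) ((F ^ r).restrict (hstab χ) ^ Module.finrank κ L))
        = ((Fintype.card L : E) - 1) * ((Fintype.card L : E) ^ d
          * (((Fintype.card κ : E) ^ d)⁻¹) ^ Module.finrank κ L)
          * LinearMap.trace E (W χ) ((F ^ r).restrict (hstab χ) ^ Module.finrank κ L) := by ring
      _ = _ := by rw [h3, mul_one]
  -- decompose
  obtain ⟨w, hw⟩ : ∃ w : (Π₀ χ, W χ), DirectSum.coeAddMonoidHom W w = v := hW.surjective v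
  have hFv : ∀ n : ℕ, (F ^ n) v = e ^ n • v := by
    intro n
    induction n with
    | zero => simp
    | succ n ih =>
      rw [pow_succ', Module.End.mul_apply, ih, map_smul, hv, smul_smul, pow_succ]
  set w' : (Π₀ χ, W χ) := DFinsupp.mapRange
    (fun χ u => ((F ^ r).restrict (hstab χ)) u) (fun χ => map_zero _) w with hw'
  set w'' : (Π₀ χ, W χ) := DFinsupp.mapRange
    (fun χ u => (e ^ r) • u) (fun χ => smul_zero _) w with hw''
  have h1 : DirectSum.coeAddMonoidHom W w' = e ^ r • v := by
    rw [← hFv, ← hw]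
    rw [DirectSum.coeAddMonoidHom_eq_dfinsuppSum, DirectSum.coeAddMonoidHom_eq_dfinsuppSum]
    rw [DFinsupp.sum_mapRange_index (fun _ => rfl)]
    rw [DFinsupp.sum, DFinsupp.sum, map_sum]
    exact Finset.sum_congr rfl fun χ _ => rfl
  have h1' : DirectSum.coeAddMonoidHom W w'' = e ^ r • v := by
    rw [← hw]
    rw [DirectSum.coeAddMonoidHom_eq_dfinsuppSum, DirectSum.coeAddMonoidHom_eq_dfinsuppSum]
    rw [DFinsupp.sum_mapRange_index (fun _ => rfl)]
    rw [DFinsupp.sum, DFinsupp.sum, Finset.smul_sum]
    exact Finset.sum_congr rfl fun χ _ => rfl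
  have h2 : w' = w'' := hW.injective (h1.trans h1'.symm)
  have h3 : ∀ χ, w χ = 0 := by
    intro χ
    obtain ⟨j, hj1, hj2⟩ := hj χ
    have h4 : ((F ^ r).restrict (hstab χ)) (w χ) = e ^ r • w χ := by
      have h5 := congrArg (fun u : (Π₀ χ, W χ) => u χ) h2
      simpa [hw', hw''] using h5
    have h5 : ∀ n : ℕ, (A χ ^ n) (w χ) = ((((Fintype.card κ : E) ^ d)⁻¹ * e ^ r) ^ n) • w χ := by
      intro n
      induction n with
      | zero => simp
      | succ n ih =>
        rw [pow_succ', Module.End.mul_apply, ih, map_smul]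
        have h6 : A χ (w χ) = (((Fintype.card κ : E) ^ d)⁻¹ * e ^ r) • w χ := by
          rw [hA]
          simp only
          rw [LinearMap.smul_apply, h4, smul_smul]
        rw [h6, smul_smul, pow_succ]
    have h6 : (A χ ^ M) (w χ) = w χ := by
      rw [h5 M]
      have h7 : (((Fintype.card κ : E) ^ d)⁻¹ * e ^ r) ^ M = 1 := by
        rw [mul_pow, ← pow_mul, mul_comm r M, pow_mul, heM, inv_pow, ← hq0]
        push_cast
        rw [← pow_mul, ← pow_mul, ← pow_mul, ← pow_mul]
        have hq0' : (q0 : E) ^ r ≠ 0 := by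
          have : ((q0 ^ r : ℕ) : E) ≠ 0 := by rw [hq0]; exact hκ0
          simpa using this
        have h8 : r * (d * M) = d * (M * r) := by ring
        rw [← h8]
        apply inv_mul_cancel₀
        rw [pow_mul]
        exact pow_ne_zero _ hq0'
      rw [h7, one_smul]
    exact Pool.Agent.W528.HB.noRoot hN κ hf d l (a χ) (ha χ) hj1
      (by calc _ < (d + 1) * f * N := hj2
            _ = f * N * (d + 1) := by ring) hz hμ (A χ) (hAt χ) M hM (w χ) h6
  apply hv0
  rw [← hw, show w = 0 from DFinsupp.ext h3, map_zero]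

end Pool.Agent.Results.MP_8ac872_ag.LineArrangementCovers
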